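import Pool.Agent.N641.VB.Stm2

/-!
# Project VB, leaf TM1: closure properties of tame predicates
-/

set_option autoImplicit false

namespace Pool.Agent.N966.VB

open Pool.Agent.N641.VB

section cells

variable {A : Type} [BooleanAlgebra A]

theorem le_cell {n : ℕ} (p : Fin n → A) (ε : Fin n → Bool) (x : A) :
    x ≤ cell p ε ↔ ∀ i, x ≤ if ε i then p i else (p i)ᶜ := by
  unfold cell
  rw [Finset.le_inf_iff]
  exact ⟨fun h i => h i (Finset.mem_univ i), fun h i _ => h i⟩

theorem cell_le {n : ℕ} (p : Fin n → A) (ε : Fin n → Bool) (i : Fin n) :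
    cell p ε ≤ if ε i then p i else (p i)ᶜ := (le_cell p ε _).1 le_rfl i

theorem cell_succ {n : ℕ} (p : Fin (n + 1) → A) (ε : Fin (n + 1) → Bool) :
    cell p ε = cell (fun i : Fin n => p i.castSucc) (fun i => ε i.castSucc) ⊓
      (if ε (Fin.last n) then p (Fin.last n) else (p (Fin.last n))ᶜ) := by
  refine eq_of_forall_le_iff fun x => ?_
  rw [le_cell, le_inf_iff, le_cell, Fin.forall_fin_succ']

theorem cell_disj {n : ℕ} (p : Fin n → A) {ε ε' : Fin n → Bool} (h : ε ≠ ε') :
    Disjoint (cell p ε) (cell p ε') := by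
  obtain ⟨i, hi⟩ := Function.ne_iff.1 h
  have h1 := cell_le p ε i
  have h2 := cell_le p ε' i
  cases he : ε i with
  | true =>
    have he' : ε' i = false := by
      cases h3 : ε' i with
      | true => exact absurd (he.trans h3.symm) hi
      | false => rfl
    rw [he] at h1
    rw [he'] at h2
    simp only [if_true, Bool.false_eq_true, if_false] at h1 h2
    exact disjoint_compl_right.mono h1 h2
  | false =>
    have he' : ε' i = true := by
      cases h3 : ε' i with
      | true => rfl
      | false => exact absurd (he.trans h3.symm) hi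
    rw [he] at h1
    rw [he'] at h2
    simp only [if_true, Bool.false_eq_true, if_false] at h1 h2
    exact disjoint_compl_left.mono h1 h2

theorem eq_bot_of_cells : ∀ (n : ℕ) (p : Fin n → A) (x : A), (∀ ε, Disjoint x (cell p ε)) →
    x = ⊥
  | 0, p, x, h => by
    have h1 : cell p (fun _ => true) = ⊤ := by
      refine top_le_iff.1 ((le_cell p _ _).2 fun i => i.elim0)
    have h2 := h fun _ => true
    rw [h1] at h2
    exact disjoint_top.1 h2
  | n + 1, p, x, h => by
    refine eq_bot_of_cells n (fun i => p i.castSucc) x fun ε => ?_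
    have h1 := h (Fin.snoc ε true)
    have h2 := h (Fin.snoc ε false)
    rw [cell_succ] at h1 h2
    simp only [Fin.snoc_castSucc, Fin.snoc_last, if_true, Bool.false_eq_true, if_false] at h1 h2
    have h3 := h1.sup_right h2
    rw [← inf_sup_left, sup_compl_eq_top, inf_top_eq] at h3
    exact h3

theorem eq_sup_cells {n : ℕ} (p : Fin n → A) (S : Finset (Fin n → Bool)) (x : A)
    (h1 : ∀ ε ∈ S, cell p ε ≤ x) (h2 : ∀ ε, ε ∉ S → Disjoint x (cell p ε)) :
    x = S.sup (cell p) := by
  classical
  refine le_antisymm ?_ (Finset.sup_le h1)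
  rw [← sdiff_eq_bot_iff]
  refine eq_bot_of_cells n p _ fun ε => ?_
  by_cases he : ε ∈ S
  · exact disjoint_sdiff_self_left.mono_right (Finset.le_sup he)
  · exact (h2 ε he).mono_left sdiff_le

end cells

variable {M : Type} [AddCommMonoid M]

theorem tp_fsup {A : Type} [BooleanAlgebra A] {mu : A → M} (hm : AM mu) (k : ℕ) {n : ℕ}
    (p : Fin n → A) (S : Finset (Fin n → Bool)) :
    tp mu k (S.sup (cell p)) = ∑ ε ∈ S, tp mu k (cell p ε) := by
  classical
  induction S using Finset.induction_on with
  | empty => rw [Finset.sup_empty, Finset.sum_empty, tp_bot hm]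
  | insert ε S he ih =>
    rw [Finset.sup_insert, Finset.sum_insert he, tp_sup hm, ih]
    rw [Finset.disjoint_sup_right]
    intro ε' he'
    refine cell_disj p ?_
    rintro rfl
    exact he he'

/-- the types of joins of cells -/
theorem tp_cells {A A' : Type} [BooleanAlgebra A] [BooleanAlgebra A'] {mu : A → M} {mu' : A' → M}
    (hm : AM mu) (hm' : AM mu') (k : ℕ) {n : ℕ} (p : Fin n → A) (p' : Fin n → A')
    (h : ∀ ε, tp mu k (cell p ε) = tp mu' k (cell p' ε)) (S : Finset (Fin n → Bool)) {x : A}
    {x' : A'} (hx : x = S.sup (cell p)) (hx' : x' = S.sup (cell p')) :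
    tp mu k x = tp mu' k x' := by
  rw [hx, hx', tp_fsup hm, tp_fsup hm']
  exact Finset.sum_congr rfl fun ε _ => h ε

theorem eq_p {A : Type} [BooleanAlgebra A] {n : ℕ} (p : Fin n → A) (i : Fin n) :
    p i = (Finset.univ.filter fun ε : Fin n → Bool => ε i = true).sup (cell p) := by
  refine eq_sup_cells p _ _ ?_ ?_
  · intro ε he
    have h1 := cell_le p ε i
    rw [(Finset.mem_filter.1 he).2] at h1
    simpa using h1
  · intro ε he
    have h1 := cell_le p ε i
    have h2 : ε i = false := by
      rw [← Bool.not_eq_true]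
      exact fun h3 => he (Finset.mem_filter.2 ⟨Finset.mem_univ ε, h3⟩)
    rw [h2] at h1
    simp only [Bool.false_eq_true, if_false] at h1
    exact disjoint_compl_right.mono_right h1

theorem eq_sd {A : Type} [BooleanAlgebra A] {n : ℕ} (p : Fin n → A) (i j : Fin n) :
    p i \ p j = (Finset.univ.filter fun ε : Fin n → Bool => ε i = true ∧ ε j = false).sup
      (cell p) := by
  refine eq_sup_cells p _ _ ?_ ?_
  · intro ε he
    have h1 := cell_le p ε i
    have h2 := cell_le p ε j
    obtain ⟨_, h3, h4⟩ := Finset.mem_filter.1 he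
    rw [h3] at h1
    rw [h4] at h2
    simp only [if_true, Bool.false_eq_true, if_false] at h1 h2
    rw [sdiff_eq]
    exact le_inf h1 h2
  · intro ε he
    have h1 := cell_le p ε i
    have h2 := cell_le p ε j
    cases h3 : ε i with
    | false =>
      rw [h3] at h1
      simp only [Bool.false_eq_true, if_false] at h1
      exact (disjoint_compl_right.mono_right h1).mono_left sdiff_le
    | true =>
      cases h4 : ε j with
      | false => exact absurd (Finset.mem_filter.2 ⟨Finset.mem_univ _, h3, h4⟩) he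
      | true =>
        rw [h4] at h2
        simp only [if_true] at h2
        exact disjoint_sdiff_self_left.mono_right h2

theorem eq_comp {A : Type} [BooleanAlgebra A] {n m : ℕ} (g : Fin n → Fin m) (p : Fin m → A)
    (η : Fin n → Bool) : cell (p ∘ g) η =
      (Finset.univ.filter fun ε : Fin m → Bool => ε ∘ g = η).sup (cell p) := by
  refine eq_sup_cells p _ _ ?_ ?_
  · intro ε he
    have h1 := (Finset.mem_filter.1 he).2
    rw [le_cell]
    intro i
    rw [← h1]
    exact cell_le p ε (g i)
  · intro ε he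
    have h1 : ε ∘ g ≠ η := fun h => he (Finset.mem_filter.2 ⟨Finset.mem_univ _, h⟩)
    have h2 : cell p ε ≤ cell (p ∘ g) (ε ∘ g) := by
      rw [le_cell]
      intro i
      exact cell_le p ε (g i)
    exact (cell_disj (p ∘ g) h1.symm).mono_right h2

/-- **TM1** -/
theorem TM1 : S_TM1 := by
  classical
  intro M _
  refine ⟨?_, ?_, ?_, ?_, ?_, ?_⟩
  · intro n i j
    refine ⟨0, ?_⟩
    intro A A' _ _ mu mu' p p' hm hm' h hle
    have h1 : (p i \ p j = ⊥) = (p' i \ p' j = ⊥) :=
      tp_cells hm hm' 0 p p' h _ (eq_sd p i j) (eq_sd p' i j)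
    have h2 : p i \ p j = ⊥ := sdiff_eq_bot_iff.2 hle
    rw [h1] at h2
    exact sdiff_eq_bot_iff.1 h2
  · intro n i v
    refine ⟨1, ?_⟩
    intro A A' _ _ mu mu' p p' hm hm' h hv
    have h1 : tp mu 1 (p i) = tp mu' 1 (p' i) :=
      tp_cells hm hm' 1 p p' h _ (eq_p p i) (eq_p p' i)
    have h2 : mu (p i) = mu' (p' i) := congrArg Prod.fst h1
    show mu' (p' i) = v
    rw [← h2]
    exact hv
  · intro n
    exact ⟨0, fun A A' _ _ mu mu' p p' _ _ _ h => h⟩
  · rintro n Q Q' ⟨k, hk⟩ ⟨k', hk'⟩
    refine ⟨max k k', ?_⟩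
    intro A A' _ _ mu mu' p p' hm hm' h himp hQ
    refine hk' A A' mu mu' p p' hm hm' (fun ε => tp_mono (le_max_right k k') (h ε)) (himp ?_)
    exact hk A' A mu' mu p' p hm' hm (fun ε => (tp_mono (le_max_left k k') (h ε)).symm) hQ
  · rintro n Q ⟨k, hk⟩
    refine ⟨k + 1, ?_⟩
    intro A A' _ _ mu mu' p p' hm hm' h hQ b'
    have hex : ∀ ε, ∃ b ≤ cell p ε, tp mu k b = tp mu' k (cell p' ε ⊓ b') ∧
        tp mu k (cell p ε \ b) = tp mu' k (cell p' ε \ b') := by
      intro ε
      have h3 : ((tp mu' k (cell p' ε ⊓ b'), tp mu' k (cell p' ε \ (cell p' ε ⊓ b'))) :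
          TP M k × TP M k) ∈ (tp mu' (k + 1) (cell p' ε)).2 := ⟨_, inf_le_left, rfl⟩
      rw [← h ε] at h3
      obtain ⟨b, hb, h4⟩ := h3
      refine ⟨b, hb, (congrArg Prod.fst h4).symm, ?_⟩
      have h5 := congrArg Prod.snd h4
      rw [sdiff_inf_self_left] at h5
      exact h5.symm
    choose c hc1 hc2 hc3 using hex
    set b : A := Finset.univ.sup c with hb
    have hcb : ∀ ε, cell p ε ⊓ b = c ε := by
      intro ε
      refine le_antisymm ?_ (le_inf (hc1 ε) (Finset.le_sup (Finset.mem_univ ε)))
      rw [hb, Finset.sup_inf_distrib_left]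
      refine Finset.sup_le fun ε' _ => ?_
      by_cases he : ε = ε'
      · rw [he]
        exact inf_le_right
      · have h5 : Disjoint (cell p ε) (c ε') := (cell_disj p he).mono_right (hc1 ε')
        rw [h5.eq_bot]
        exact bot_le
    have hcb' : ∀ ε, cell p ε \ b = cell p ε \ c ε := by
      intro ε
      rw [← hcb ε, sdiff_inf_self_left]
    refine hk A A' mu mu' (Fin.snoc p b) (Fin.snoc p' b') hm hm' ?_ (hQ b)
    intro η
    rw [cell_succ, cell_succ]
    simp only [Fin.snoc_castSucc, Fin.snoc_last]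
    cases η (Fin.last n) with
    | true =>
      simp only [if_true]
      have h6 := hc2 fun i => η i.castSucc
      rw [← hcb] at h6
      exact h6
    | false =>
      simp only [Bool.false_eq_true, if_false]
      have h6 := hc3 fun i => η i.castSucc
      rw [← hcb', sdiff_eq, sdiff_eq] at h6
      exact h6
  · rintro n m g Q ⟨k, hk⟩
    refine ⟨k, ?_⟩
    intro A A' _ _ mu mu' p p' hm hm' h hQ
    refine hk A A' mu mu' (p ∘ g) (p' ∘ g) hm hm' (fun η => ?_) hQ
    exact tp_cells hm hm' k p p' h _ (eq_comp g p η) (eq_comp g p' η)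

end Pool.Agent.N966.VB

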